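import Pool.Agent.H62.BC.Targets

/-!
# A matrix of rank one is a sum of two `j`-th powers of matrices of rank one
-/

namespace Pool.Agent.H29.BC

open Pool.Agent.H62.BC

universe u

/-- Powers of a matrix of rank one. -/
theorem vmv_pow {k : Type u} [Field k] {I : Type} [Fintype I] [DecidableEq I] (u w : I → k)
    (m : ℕ) : Matrix.vecMulVec u w ^ (m + 1) = (w ⬝ᵥ u) ^ m • Matrix.vecMulVec u w := by
  induction m with
  | zero => simp
  | succ m ih =>
    rw [pow_succ, ih, Matrix.smul_mul, Matrix.vecMulVec_mul_vecMulVec, pow_succ, mul_smul]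
    congr 1
    ext a b
    simp [Matrix.vecMulVec_apply, Matrix.smul_apply]
    ring

/-- One piece. -/
theorem vmv_root {k : Type u} [Field k] [IsAlgClosed k] {I : Type} [Fintype I] [DecidableEq I]
    (u w : I → k) (h : w ⬝ᵥ u ≠ 0) (j : ℕ) (hj : 1 ≤ j) :
    ∃ u₁ w₁ : I → k, Matrix.vecMulVec u w = Matrix.vecMulVec u₁ w₁ ^ j := by
  obtain ⟨m, rfl⟩ : ∃ m, j = m + 1 := ⟨j - 1, by omega⟩
  obtain ⟨r, hr⟩ := IsAlgClosed.exists_pow_nat_eq (((w ⬝ᵥ u) ^ m)⁻¹) (Nat.succ_pos m)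
  refine ⟨r • u, w, ?_⟩
  have hp : (w ⬝ᵥ u) ^ m ≠ 0 := pow_ne_zero _ h
  rw [vmv_pow]
  have h1 : Matrix.vecMulVec (r • u) w = r • Matrix.vecMulVec u w := by
    ext a b
    simp [Matrix.vecMulVec_apply, mul_assoc]
  rw [h1, dotProduct_smul, smul_eq_mul, mul_pow, smul_smul]
  have h2 : r ^ m * (w ⬝ᵥ u) ^ m * r = 1 := by
    have : r ^ m * (w ⬝ᵥ u) ^ m * r = r ^ (m + 1) * (w ⬝ᵥ u) ^ m := by ring
    rw [this]
    rw [show r ^ (m + 1) = ((w ⬝ᵥ u) ^ m)⁻¹ from hr]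
    exact inv_mul_cancel₀ hp
  rw [h2, one_smul]

/-- Row A5. -/
theorem pf_A5 : T_A5.{u} := by
  intro k _ _ I _ _ j u w hj
  by_cases hu : u = 0
  · refine ⟨0, 0, 0, 0, ?_⟩
    have h0 : (Matrix.vecMulVec (0 : I → k) (0 : I → k)) = 0 := by
      ext a b; simp [Matrix.vecMulVec_apply]
    have h1 : (Matrix.vecMulVec (0 : I → k) w) = 0 := by
      ext a b; simp [Matrix.vecMulVec_apply]
    rw [hu, h0, h1, zero_pow (by omega), add_zero]
  · obtain ⟨i, hi⟩ : ∃ i, u i ≠ 0 := by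
      by_contra hcon
      push Not at hcon
      exact hu (funext hcon)
    classical
    have hinf : Infinite k := inferInstance
    obtain ⟨c, hc⟩ := Infinite.exists_notMem_finset ({0, (w ⬝ᵥ u) / u i} : Finset k)
    simp only [Finset.mem_insert, Finset.mem_singleton, not_or] at hc
    have hd : (Pi.single i c : I → k) ⬝ᵥ u = c * u i := by
      simp [single_dotProduct]
    have h1 : (w - Pi.single i c) ⬝ᵥ u ≠ 0 := by
      rw [sub_dotProduct, hd]
      intro h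
      apply hc.2
      rw [eq_div_iff hi]
      exact (sub_eq_zero.1 h).symm
    have h2 : (Pi.single i c : I → k) ⬝ᵥ u ≠ 0 := by
      rw [hd]
      exact mul_ne_zero hc.1 hi
    obtain ⟨u₁, w₁, e1⟩ := vmv_root u (w - Pi.single i c) h1 j hj
    obtain ⟨u₂, w₂, e2⟩ := vmv_root u (Pi.single i c) h2 j hj
    refine ⟨u₁, w₁, u₂, w₂, ?_⟩
    rw [← e1, ← e2]
    ext a b
    simp only [Matrix.vecMulVec_apply, Matrix.add_apply, Pi.sub_apply]
    ring

end Pool.Agent.H29.BC
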