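import Pool.Agent.H62.BC.Targets

/-!
# Nilpotency of the stack
-/

namespace Pool.Agent.H29.BC

open Pool.Agent.H62.BC

universe u

variable {k V : Type u} [Field k] [AddCommGroup V] [Module k V]

/-- The inclusion of the copy with number `j` (zero from the length on). -/
noncomputable def inj (k V : Type u) [Field k] [AddCommGroup V] [Module k V] (n j : ℕ) :
    V →ₗ[k] (Fin n → V) :=
  if h : j < n then LinearMap.single k (fun _ : Fin n => V) ⟨j, h⟩ else 0

theorem inj_of_lt {n j : ℕ} (h : j < n) (v : V) :
    inj k V n j v = Pi.single (⟨j, h⟩ : Fin n) v := by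
  rw [inj, dif_pos h]; rfl

theorem inj_of_ge {n j : ℕ} (h : n ≤ j) : inj k V n j = 0 := by
  rw [inj, dif_neg (by omega)]

theorem stk_apply (a : ℕ → Module.End k V) (n : ℕ) (f : Fin n → V) (i : Fin n) :
    stk a n f i = a i (f i) + (if h : (i : ℕ) = 0 then 0 else f ⟨(i : ℕ) - 1, by omega⟩) := by
  simp only [stk, LinearMap.pi_apply, LinearMap.add_apply, LinearMap.comp_apply,
    LinearMap.proj_apply]
  congr 1
  split_ifs with h
  · rfl
  · rfl

theorem stk_inj (a : ℕ → Module.End k V) (n j : ℕ) :
    (stk a n) ∘ₗ (inj k V n j) = (inj k V n j) ∘ₗ (a j) + inj k V n (j + 1) := by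
  ext v i
  simp only [LinearMap.comp_apply, LinearMap.add_apply, Pi.add_apply]
  rw [stk_apply]
  by_cases hj : j < n
  · rw [inj_of_lt hj, inj_of_lt hj]
    congr 1
    · by_cases hij : i = ⟨j, hj⟩
      · subst hij; simp
      · simp [Pi.single_eq_of_ne hij]
    · by_cases hj1 : j + 1 < n
      · rw [inj_of_lt hj1]
        by_cases hij : i = ⟨j + 1, hj1⟩
        · subst hij
          rw [dif_neg (by simp)]
          have : (⟨((⟨j + 1, hj1⟩ : Fin n) : ℕ) - 1, by omega⟩ : Fin n) = ⟨j, hj⟩ := by
            ext; simp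
          rw [this]; simp
        · rw [Pi.single_eq_of_ne hij]
          split_ifs with h0
          · rfl
          · rw [Pi.single_eq_of_ne]
            intro h
            apply hij
            have h' := congrArg Fin.val h
            simp only at h'
            ext
            simp only
            omega
      · rw [inj_of_ge (by omega)]
        simp only [LinearMap.zero_apply, Pi.zero_apply]
        split_ifs with h0
        · rfl
        · rw [Pi.single_eq_of_ne]
          intro h
          have h' := congrArg Fin.val h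
          simp only at h'
          have := i.2
          omega
  · rw [inj_of_ge (by omega), inj_of_ge (by omega)]
    simp

/-- The operator in every component. -/
noncomputable def comps (τ : Module.End k V) (n : ℕ) : Module.End k (Fin n → V) :=
  LinearMap.compLeft τ (Fin n)

theorem comps_apply (τ : Module.End k V) (n : ℕ) (f : Fin n → V) (i : Fin n) :
    comps τ n f i = τ (f i) := rfl

theorem comps_inj (τ : Module.End k V) (n j : ℕ) :
    (comps τ n) ∘ₗ (inj k V n j) = (inj k V n j) ∘ₗ τ := by
  ext v i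
  simp only [LinearMap.comp_apply, comps_apply]
  by_cases hj : j < n
  · rw [inj_of_lt hj, inj_of_lt hj]
    by_cases hij : i = ⟨j, hj⟩
    · subst hij; simp
    · simp [Pi.single_eq_of_ne hij]
  · rw [inj_of_ge (by omega)]
    simp

theorem comps_pow (τ : Module.End k V) (n m : ℕ) : (comps τ n) ^ m = comps (τ ^ m) n := by
  induction m with
  | zero => ext; simp [comps]
  | succ m ih =>
    rw [pow_succ, ih, pow_succ]
    ext v i
    simp [comps]

theorem comps_comm (τ : Module.End k V) (a : ℕ → Module.End k V) (n : ℕ)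
    (h : ∀ i, Commute τ (a i)) : Commute (comps τ n) (stk a n) := by
  refine LinearMap.ext fun f => funext fun i => ?_
  simp only [Module.End.mul_apply]
  rw [comps_apply, stk_apply, stk_apply, map_add]
  congr 1
  · have := congrArg (fun g : Module.End k V => g (f i)) (h i).eq
    simp only [Module.End.mul_apply] at this
    rw [this, comps_apply]
  · split_ifs with h0
    · simp
    · rfl

theorem coeff_step (M : ℕ → Module.End k V) (j l : ℕ) :
    (ppol M (j + 1)).coeff (l + 1) = (ppol M j).coeff (l + 1) + (ppol M j).coeff l * M j := by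
  rw [ppol, mul_add, mul_one, Polynomial.coeff_add, ← mul_assoc, Polynomial.coeff_mul_C,
    Polynomial.coeff_mul_X]

theorem coeff_step0 (M : ℕ → Module.End k V) (j : ℕ) :
    (ppol M (j + 1)).coeff 0 = (ppol M j).coeff 0 := by
  rw [ppol, mul_add, mul_one, Polynomial.coeff_add, ← mul_assoc, Polynomial.coeff_mul_C,
    Polynomial.coeff_mul_X_zero]
  simp

theorem coeff_big (M : ℕ → Module.End k V) (j : ℕ) : ∀ l, j < l → (ppol M j).coeff l = 0 := by
  induction j with
  | zero =>
    intro l hl
    rw [ppol, Polynomial.coeff_one, if_neg (by omega)]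
  | succ j ih =>
    intro l hl
    obtain ⟨m, rfl⟩ : ∃ m, l = m + 1 := ⟨l - 1, by omega⟩
    rw [coeff_step, ih _ (by omega), ih _ (by omega)]
    simp

/-- The expansion of the inclusions. -/
theorem inj_eq (n : ℕ) (τ : Module.End k V) (M : ℕ → Module.End k V)
    (hτ : ∀ i, Commute τ (M i)) (j : ℕ) :
    inj k V n j = ∑ p ∈ Finset.HasAntidiagonal.antidiagonal j,
      ((comps τ n) ^ p.1 * (stk (fun i => τ * (1 - M i)) n - comps τ n) ^ p.2) ∘ₗ
        (inj k V n 0) ∘ₗ ((ppol M j).coeff p.1) := by
  set T := comps τ n with hT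
  set Z := stk (fun i => τ * (1 - M i)) n with hZ
  have hcomm : Commute T Z := comps_comm τ _ n fun i => by
    have h1 : Commute τ (1 - M i) := (Commute.one_right τ).sub_right (hτ i)
    exact (Commute.refl τ).mul_right h1
  have hTS : Commute T (Z - T) := hcomm.sub_right (Commute.refl T)
  induction j with
  | zero =>
    rw [Finset.Nat.antidiagonal_zero, Finset.sum_singleton]
    simp only [ppol, Polynomial.coeff_one, pow_zero, mul_one, if_true]
    rfl
  | succ j ih =>
    have hstep : inj k V n (j + 1) = (Z - T) ∘ₗ (inj k V n j) + T ∘ₗ (inj k V n j) ∘ₗ (M j) := by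
      have h1 := stk_inj (fun i => τ * (1 - M i)) n j
      have h2 := comps_inj τ n j
      rw [← hZ] at h1
      rw [← hT] at h2
      rw [LinearMap.sub_comp, h1, h2, ← LinearMap.comp_assoc, h2]
      ext v i
      simp only [LinearMap.add_apply, LinearMap.sub_apply, LinearMap.comp_apply,
        Module.End.mul_apply, map_sub, Pi.add_apply, Pi.sub_apply, Module.End.one_apply]
      abel
    rw [hstep]
    conv_lhs => rw [ih]
    have e1 : (Z - T) ∘ₗ (∑ p ∈ Finset.HasAntidiagonal.antidiagonal j, (T ^ p.1 * (Z - T) ^ p.2) ∘ₗ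
        (inj k V n 0) ∘ₗ ((ppol M j).coeff p.1)) =
        ∑ p ∈ Finset.HasAntidiagonal.antidiagonal (j + 1), (T ^ p.1 * (Z - T) ^ p.2) ∘ₗ
        (inj k V n 0) ∘ₗ ((ppol M j).coeff p.1) := by
      rw [Finset.Nat.sum_antidiagonal_succ']
      simp only
      rw [coeff_big M j (j + 1) (by omega)]
      have hz : (T ^ (j + 1) * (Z - T) ^ 0) ∘ₗ (inj k V n 0) ∘ₗ (0 : Module.End k V) = 0 := by
        rw [LinearMap.comp_zero, LinearMap.comp_zero]
      rw [hz, zero_add]
      ext v : 1
      simp only [LinearMap.comp_apply, LinearMap.sum_apply, map_sum]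
      refine Finset.sum_congr rfl fun p _ => ?_
      have h3 : T ^ p.1 * (Z - T) ^ (p.2 + 1) = (Z - T) * (T ^ p.1 * (Z - T) ^ p.2) := by
        rw [pow_succ', ← mul_assoc, ← mul_assoc, (hTS.pow_left p.1).eq]
      rw [h3]
      rfl
    have e2 : T ∘ₗ (∑ p ∈ Finset.HasAntidiagonal.antidiagonal j, (T ^ p.1 * (Z - T) ^ p.2) ∘ₗ
        (inj k V n 0) ∘ₗ ((ppol M j).coeff p.1)) ∘ₗ (M j) =
        ∑ p ∈ Finset.HasAntidiagonal.antidiagonal j, (T ^ (p.1 + 1) * (Z - T) ^ p.2) ∘ₗ
        (inj k V n 0) ∘ₗ ((ppol M j).coeff p.1 * M j) := by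
      ext v : 1
      simp only [LinearMap.comp_apply, LinearMap.sum_apply, map_sum]
      refine Finset.sum_congr rfl fun p _ => ?_
      rw [pow_succ', mul_assoc]
      rfl
    rw [e1, e2, Finset.Nat.sum_antidiagonal_succ, Finset.Nat.sum_antidiagonal_succ]
    simp only
    rw [coeff_step0, add_assoc, ← Finset.sum_add_distrib]
    congr 1
    refine Finset.sum_congr rfl fun p _ => ?_
    rw [coeff_step]
    ext v : 1
    simp only [LinearMap.comp_apply, LinearMap.add_apply, map_add]

/-- Row STA. -/
theorem pf_STA : T_STA.{u} := by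
  intro k V _ _ _ n e τ M hτ hn hc
  set T := comps τ n with hT
  set Z := stk (fun i => τ * (1 - M i)) n with hZ
  have hcomm : Commute T Z := comps_comm τ _ n fun i => by
    have h1 : Commute τ (1 - M i) := (Commute.one_right τ).sub_right (hτ i)
    exact (Commute.refl τ).mul_right h1
  have hTS : Commute T (Z - T) := hcomm.sub_right (Commute.refl T)
  have hTn : T ^ (e + 1) = 0 := by
    rw [hT, comps_pow, hn]
    ext; simp [comps]
  have h0 : (Z ^ n) ∘ₗ (inj k V n 0) = 0 := by
    have h1 := inj_eq n τ M hτ n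
    rw [← hT, ← hZ, inj_of_ge (le_refl n)] at h1
    have h2 : Z ^ n = ∑ p ∈ Finset.HasAntidiagonal.antidiagonal n, n.choose p.1 • (T ^ p.1 * (Z - T) ^ p.2) := by
      have := hTS.add_pow' n
      rw [add_sub_cancel] at this
      exact this
    rw [h2, h1]
    ext v : 1
    simp only [LinearMap.comp_apply, LinearMap.sum_apply, LinearMap.smul_apply]
    refine Finset.sum_congr rfl fun p _ => ?_
    by_cases hp : p.1 ≤ e
    · rw [hc p.1 hp]
      have : ((n.choose p.1 : ℕ) : Module.End k V) v = n.choose p.1 • v := by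
        simp
      rw [this, map_nsmul, map_nsmul]
    · have : T ^ p.1 = 0 := by
        obtain ⟨m, hm⟩ : ∃ m, p.1 = e + 1 + m := ⟨p.1 - (e + 1), by omega⟩
        rw [hm, pow_add, hTn, zero_mul]
      rw [this, zero_mul]
      simp
  have hall : ∀ j, (Z ^ n) ∘ₗ (inj k V n j) = 0 := by
    intro j
    induction j with
    | zero => exact h0
    | succ j ih =>
      have h1 := stk_inj (fun i => τ * (1 - M i)) n j
      rw [← hZ] at h1
      have h2 : inj k V n (j + 1) = Z ∘ₗ (inj k V n j) - (inj k V n j) ∘ₗ (τ * (1 - M j)) := by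
        rw [h1]; abel
      rw [h2, LinearMap.comp_sub, ← LinearMap.comp_assoc, ← LinearMap.comp_assoc, ih]
      have h3 : (Z ^ n) ∘ₗ Z = Z ∘ₗ (Z ^ n) := (Commute.pow_self Z n).eq
      rw [h3, LinearMap.comp_assoc, ih]
      simp
  refine LinearMap.ext fun f => ?_
  have hf : f = ∑ i : Fin n, inj k V n i (f i) := by
    funext l
    rw [Finset.sum_apply, Finset.sum_eq_single l]
    · rw [inj_of_lt l.2]; simp
    · intro b _ hb
      rw [inj_of_lt b.2]
      rw [Pi.single_eq_of_ne]
      intro h
      exact hb (by rw [h])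
    · intro h; exact absurd (Finset.mem_univ _) h
  rw [hf, map_sum]
  simp only [LinearMap.zero_apply]
  refine Finset.sum_eq_zero fun i _ => ?_
  have := congrArg (fun g : V →ₗ[k] (Fin n → V) => g (f i)) (hall i)
  simpa using this

end Pool.Agent.H29.BC
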